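import Pool.Agent.N805.JG.Stm

/-!
# Project JG (helper805), part PROD (helper803)
-/

set_option autoImplicit false

open MeasureTheory Filter Topology

namespace Pool.Agent.N803.JG

open Pool.Agent.N805.JG

theorem prod_diff (I : Finset ℕ) (a b w : ℕ → ℝ) (K η : ℝ) (hK : 1 ≤ K) (hη : 0 ≤ η)
    (hw : ∀ i ∈ I, 0 ≤ w i) (ha : ∀ i ∈ I, |a i| ≤ K * w i) (hb : ∀ i ∈ I, |b i| ≤ K * w i)
    (hab : ∀ i ∈ I, |a i - b i| ≤ η * w i) :
    |∏ i ∈ I, a i - ∏ i ∈ I, b i| ≤ I.card * K ^ I.card * η * ∏ i ∈ I, w i := by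
  induction I using Finset.induction_on with
  | empty => simp
  | insert i I hi ih =>
    have hw' : ∀ i ∈ I, 0 ≤ w i := fun l hl => hw l (Finset.mem_insert_of_mem hl)
    have ih' := ih hw' (fun l hl => ha l (Finset.mem_insert_of_mem hl))
      (fun l hl => hb l (Finset.mem_insert_of_mem hl))
      (fun l hl => hab l (Finset.mem_insert_of_mem hl))
    have hwi := hw i (Finset.mem_insert_self i I)
    have hai := ha i (Finset.mem_insert_self i I)
    have hbi := hb i (Finset.mem_insert_self i I)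
    have habi := hab i (Finset.mem_insert_self i I)
    rw [Finset.prod_insert hi, Finset.prod_insert hi, Finset.prod_insert hi,
      Finset.card_insert_of_notMem hi]
    have hW : 0 ≤ ∏ i ∈ I, w i := Finset.prod_nonneg hw'
    have hA : |∏ l ∈ I, a l| ≤ K ^ I.card * ∏ l ∈ I, w l := by
      rw [Finset.abs_prod, ← Finset.prod_const, ← Finset.prod_mul_distrib]
      exact Finset.prod_le_prod (fun _ _ => abs_nonneg _) fun l hl =>
        ha l (Finset.mem_insert_of_mem hl)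
    have e : a i * ∏ l ∈ I, a l - b i * ∏ l ∈ I, b l =
        (a i - b i) * ∏ l ∈ I, a l + b i * (∏ l ∈ I, a l - ∏ l ∈ I, b l) := by ring
    rw [e]
    refine (abs_add_le _ _).trans ?_
    rw [abs_mul, abs_mul]
    have h1 : |a i - b i| * |∏ l ∈ I, a l| ≤ (η * w i) * (K ^ I.card * ∏ l ∈ I, w l) :=
      mul_le_mul habi hA (abs_nonneg _) (mul_nonneg hη hwi)
    have h2 : |b i| * |∏ l ∈ I, a l - ∏ l ∈ I, b l| ≤
        (K * w i) * (I.card * K ^ I.card * η * ∏ l ∈ I, w l) :=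
      mul_le_mul hbi ih' (abs_nonneg _) (mul_nonneg (by linarith) hwi)
    have hKp : 0 ≤ K ^ I.card := pow_nonneg (by linarith) _
    have h3 : (η * w i) * (K ^ I.card * ∏ l ∈ I, w l) ≤
        K * ((η * w i) * (K ^ I.card * ∏ l ∈ I, w l)) :=
      le_mul_of_one_le_left (mul_nonneg (mul_nonneg hη hwi) (mul_nonneg hKp hW)) hK
    push_cast
    calc _ ≤ K * ((η * w i) * (K ^ I.card * ∏ l ∈ I, w l)) +
          (K * w i) * (I.card * K ^ I.card * η * ∏ l ∈ I, w l) := by linarith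
      _ = _ := by ring

section

variable {ι : Type} {L : Filter ι} {P : ι → Measure (ℕ → ℝ)}

theorem meas_prod (I : Finset ℕ) (u : ℕ → ℝ → ℝ) (hu : ∀ i, Continuous (u i)) :
    Measurable (fun x : ℕ → ℝ => ∏ i ∈ I, u i (x i)) := by
  refine Finset.measurable_fun_prod I fun i _ => ?_
  exact (hu i).measurable.comp (measurable_pi_apply i)

theorem intg (hI : S_INT) (hP : Good L P) (I : Finset ℕ) (u : ℕ → ℝ → ℝ) (Cu : ℕ → ℝ) (k : ℕ)
    (hu : ∀ i, Continuous (u i)) (hb : ∀ i ∈ I, ∀ x : ℝ, 0 ≤ x → |u i x| ≤ Cu i * (1 + x) ^ k)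
    (j : ι) : Integrable (fun x : ℕ → ℝ => ∏ i ∈ I, u i (x i)) (P j) := by
  refine Integrable.mono' (((hI hP I k).1 j).const_mul (∏ i ∈ I, Cu i))
    (meas_prod I u hu).aestronglyMeasurable ?_
  filter_upwards [ae_all_iff.2 (hP.nn j)] with x hx
  rw [Real.norm_eq_abs, Finset.abs_prod, ← Finset.prod_mul_distrib]
  refine Finset.prod_le_prod (fun _ _ => abs_nonneg _) fun i hi => ?_
  rw [abs_of_nonneg (hx i)]
  exact hb i hi (x i) (hx i)

theorem diff_le (hI : S_INT) (hP : Good L P) (I : Finset ℕ) (g h : ℕ → ℝ → ℝ) (k : ℕ) (K η : ℝ)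
    (hK : 1 ≤ K) (hη : 0 ≤ η) (hgc : ∀ i, Continuous (g i)) (hhc : ∀ i, Continuous (h i))
    (hg : ∀ i x, 0 ≤ x → |g i x| ≤ K * (1 + x) ^ k) (hh : ∀ i x, 0 ≤ x → |h i x| ≤ K * (1 + x) ^ k)
    (hgh : ∀ i x, 0 ≤ x → |g i x - h i x| ≤ η * (1 + x) ^ k) (j : ι) :
    |∫ x, ∏ i ∈ I, g i (x i) ∂(P j) - ∫ x, ∏ i ∈ I, h i (x i) ∂(P j)| ≤
      I.card * K ^ I.card * η * ∫ x, ∏ i ∈ I, (1 + |x i|) ^ k ∂(P j) := by
  rw [← integral_sub (intg hI hP I g (fun _ => K) k hgc (fun i _ x hx => hg i x hx) j)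
    (intg hI hP I h (fun _ => K) k hhc (fun i _ x hx => hh i x hx) j),
    ← MeasureTheory.integral_const_mul]
  rw [← Real.norm_eq_abs]
  refine norm_integral_le_of_norm_le (((hI hP I k).1 j).const_mul _) ?_
  filter_upwards [ae_all_iff.2 (hP.nn j)] with x hx
  rw [Real.norm_eq_abs]
  refine prod_diff I _ _ _ K η hK hη (fun i _ => by positivity) ?_ ?_ ?_
  · intro i _
    rw [abs_of_nonneg (hx i)]
    exact hg i (x i) (hx i)
  · intro i _
    rw [abs_of_nonneg (hx i)]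
    exact hh i (x i) (hx i)
  · intro i _
    rw [abs_of_nonneg (hx i)]
    exact hgh i (x i) (hx i)

end

theorem PROD : S_PROD := by
  intro hD hI ι L P Q hP hQ I hT g C k hg hC
  have hC0 : 0 ≤ C := by
    have := (abs_nonneg _).trans (hC 0 0 le_rfl)
    simpa using this
  obtain ⟨CP, hCP⟩ := (hI hP I (k + 1)).2
  obtain ⟨CQ, hCQ⟩ := (hI hQ I (k + 1)).2
  obtain ⟨M, hM⟩ : ∃ M : ℝ, M = I.card * (C + 1) ^ I.card := ⟨_, rfl⟩
  have hM0 : 0 ≤ M := by rw [hM]; positivity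
  rw [Metric.tendsto_nhds]
  intro ε hε
  obtain ⟨η, hη⟩ : ∃ η : ℝ, η = min 1 (ε / (2 * (M * (|CP| + |CQ|) + 1))) := ⟨_, rfl⟩
  have hη0 : 0 < η := by
    rw [hη]
    refine lt_min one_pos ?_
    positivity
  have hη1 : η ≤ 1 := by rw [hη]; exact min_le_left _ _
  have hη2 : M * η * (|CP| + |CQ|) < ε / 2 := by
    have h1 : η ≤ ε / (2 * (M * (|CP| + |CQ|) + 1)) := by rw [hη]; exact min_le_right _ _
    have h2 : 0 < M * (|CP| + |CQ|) + 1 := by positivity
    rw [le_div_iff₀ (by positivity)] at h1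
    nlinarith
  choose n c t ht hgt using fun i => hD (g i) C k (hg i) (hC i) η hη0
  obtain ⟨h, hh⟩ : ∃ h : ℕ → ℝ → ℝ, ∀ i x, h i x = ∑ b, c i b * max (t i b - x) 0 :=
    ⟨_, fun _ _ => rfl⟩
  have hhc : ∀ i, Continuous (h i) := by
    intro i
    have : h i = fun x => ∑ b, c i b * max (t i b - x) 0 := funext fun x => hh i x
    rw [this]
    fun_prop
  have hgh : ∀ i x, 0 ≤ x → |g i x - h i x| ≤ η * (1 + x) ^ (k + 1) := by
    intro i x hx
    rw [hh]
    exact hgt i x hx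
  have hpow : ∀ x : ℝ, 0 ≤ x → (1 + x) ^ k ≤ (1 + x) ^ (k + 1) := fun x hx =>
    pow_le_pow_right₀ (by linarith) (Nat.le_succ k)
  have hgK : ∀ i x, 0 ≤ x → |g i x| ≤ (C + 1) * (1 + x) ^ (k + 1) := by
    intro i x hx
    have h1 := hC i x hx
    have h2 : 0 ≤ (1 + x) ^ (k + 1) := by positivity
    have h3 := mul_le_mul_of_nonneg_left (hpow x hx) hC0
    linarith
  have hhK : ∀ i x, 0 ≤ x → |h i x| ≤ (C + 1) * (1 + x) ^ (k + 1) := by
    intro i x hx
    have h1 := hC i x hx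
    have h2 : 0 ≤ (1 + x) ^ (k + 1) := by positivity
    have h3 := mul_le_mul_of_nonneg_left (hpow x hx) hC0
    have h4 := hgh i x hx
    have h5 : |h i x| ≤ |g i x| + |g i x - h i x| := by
      have e : h i x = g i x - (g i x - h i x) := by ring
      conv_lhs => rw [e]
      exact abs_sub _ _
    have h6 : η * (1 + x) ^ (k + 1) ≤ 1 * (1 + x) ^ (k + 1) := mul_le_mul_of_nonneg_right hη1 h2
    linarith
  -- the difference for the combinations tends to zero
  have hlin : Tendsto (fun j => D P Q j (fun x => ∏ i ∈ I, h i (x i))) L (𝓝 0) := by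
    classical
    obtain ⟨T, hTd⟩ : ∃ T : (∀ a ∈ I, Fin (n a)) → ℕ → ℝ, ∀ p i (hi : i ∈ I), T p i = t i (p i hi) :=
      ⟨fun p i => if hi : i ∈ I then t i (p i hi) else 0, fun p i hi => dif_pos hi⟩
    obtain ⟨T', hT', hTT'⟩ : ∃ T' : (∀ a ∈ I, Fin (n a)) → ℕ → ℝ, (∀ p i, 0 ≤ T' p i) ∧
        ∀ p, ∀ i ∈ I, T' p i = T p i := by
      refine ⟨fun p i => if i ∈ I then T p i else 0, ?_, ?_⟩
      · intro p i
        dsimp only
        split_ifs with hi
        · rw [hTd p i hi]; exact ht i _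
        · exact le_rfl
      · intro p i hi
        dsimp only
        rw [if_pos hi]
    have e : ∀ x : ℕ → ℝ, ∏ i ∈ I, h i (x i) =
        ∑ p ∈ I.pi (fun a => (Finset.univ : Finset (Fin (n a)))),
          (∏ i ∈ I.attach, c i.1 (p i.1 i.2)) * ∏ i ∈ I, max (T' p i - x i) 0 := by
      intro x
      simp only [hh]
      rw [Finset.prod_sum]
      refine Finset.sum_congr rfl fun p _ => ?_
      rw [Finset.prod_mul_distrib]
      congr 1
      rw [← Finset.prod_attach I (fun i => max (T' p i - x i) 0)]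
      refine Finset.prod_congr rfl fun i _ => ?_
      rw [hTT' p i.1 i.2, hTd p i.1 i.2]
    have hint : ∀ {R : ι → Measure (ℕ → ℝ)}, Good L R → ∀ p j, Integrable (fun x : ℕ → ℝ =>
        ∏ i ∈ I, max (T' p i - x i) 0) (R j) := by
      intro R hR p j
      refine intg hI hR I (fun i x => max (T' p i - x) 0) (T' p) 0 (fun i => by fun_prop) ?_ j
      intro i _ x hx
      rw [pow_zero, mul_one, abs_of_nonneg (le_max_right _ _)]
      exact max_le (by linarith) (hT' p i)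
    have e2 : ∀ j, D P Q j (fun x => ∏ i ∈ I, h i (x i)) =
        ∑ p ∈ I.pi (fun a => (Finset.univ : Finset (Fin (n a)))),
          (∏ i ∈ I.attach, c i.1 (p i.1 i.2)) * D P Q j (fun x => ∏ i ∈ I, max (T' p i - x i) 0) := by
      intro j
      unfold D
      simp only [e]
      rw [integral_finsetSum _ fun p _ => (hint hP p j).const_mul _,
        integral_finsetSum _ fun p _ => (hint hQ p j).const_mul _, ← Finset.sum_sub_distrib]
      refine Finset.sum_congr rfl fun p _ => ?_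
      rw [MeasureTheory.integral_const_mul, MeasureTheory.integral_const_mul]
      ring
    simp only [e2]
    have h0 := tendsto_finsetSum (I.pi (fun a => (Finset.univ : Finset (Fin (n a)))))
      fun p _ => (hT (T' p) (hT' p)).const_mul (∏ i ∈ I.attach, c i.1 (p i.1 i.2))
    simp only [mul_zero, Finset.sum_const_zero] at h0
    exact h0
  rw [Metric.tendsto_nhds] at hlin
  filter_upwards [hCP, hCQ, hlin (ε / 2) (by positivity)] with j h1 h2 h3
  rw [Real.dist_eq, sub_zero] at h3 ⊢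
  have h4 := diff_le hI hP I g h (k + 1) (C + 1) η (by linarith) hη0.le hg hhc hgK hhK hgh j
  have h5 := diff_le hI hQ I g h (k + 1) (C + 1) η (by linarith) hη0.le hg hhc hgK hhK hgh j
  rw [← hM] at h4 h5
  have h6 : M * η * ∫ x, ∏ i ∈ I, (1 + |x i|) ^ (k + 1) ∂(P j) ≤ M * η * |CP| :=
    mul_le_mul_of_nonneg_left (h1.trans (le_abs_self _)) (by positivity)
  have h7 : M * η * ∫ x, ∏ i ∈ I, (1 + |x i|) ^ (k + 1) ∂(Q j) ≤ M * η * |CQ| :=
    mul_le_mul_of_nonneg_left (h2.trans (le_abs_self _)) (by positivity)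
  unfold D at h3 ⊢
  have h8 := abs_le.1 (h4.trans h6)
  have h9 := abs_le.1 (h5.trans h7)
  have h10 := abs_lt.1 h3
  rw [abs_lt]
  constructor <;> linarith [h8.1, h8.2, h9.1, h9.2, h10.1, h10.2]

end Pool.Agent.N803.JG
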